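import Pool.Agent.Helper72.GP.Goals

/-!
# Packet GP-CIV
-/

set_option autoImplicit false

namespace Pool.Agent.Helper66.GP

open Finset
open Pool.Agent.Helper72.GP
open scoped Classical

lemma card_le_natCard {α : Type} [Fintype α] {P : α → Prop} (S : Finset α)
    (hS : ∀ x ∈ S, P x) : S.card ≤ Nat.card {x : α // P x} := by
  rw [Nat.card_eq_fintype_card, Fintype.card_subtype]
  apply Finset.card_le_card
  intro x hx
  exact mem_filter.mpr ⟨mem_univ x, hS x hx⟩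

lemma natCard_le_card {α : Type} [Fintype α] {P : α → Prop} (S : Finset α)
    (hS : ∀ x, P x → x ∈ S) : Nat.card {x : α // P x} ≤ S.card := by
  rw [Nat.card_eq_fintype_card, Fintype.card_subtype]
  apply Finset.card_le_card
  intro x hx
  exact hS x (mem_filter.mp hx).2

/-- `x ≠ z` in the box gives `0 < gd x z ≤ N`. -/
lemma gd_le (N : ℕ) (x z : Pt) (hB : Box N {x, z}) (hxz : x ≠ z) : gd x z ≤ N ∧ 0 < gd x z := by
  have hx := hB x (by simp)
  have hz := hB z (by simp)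
  have h1 : x.1 ≠ z.1 ∨ x.2 ≠ z.2 := by
    by_contra h
    push Not at h
    exact hxz (Prod.ext h.1 h.2)
  unfold gd
  constructor
  · rcases h1 with h1 | h1
    · have h2 := Int.gcd_le_natAbs_left (x.2 - z.2) (sub_ne_zero.mpr h1)
      omega
    · have h2 := Int.gcd_le_natAbs_right (x.1 - z.1) (sub_ne_zero.mpr h1)
      omega
  · apply Int.gcd_pos_iff.mpr
    rcases h1 with h1 | h1
    · exact Or.inl (sub_ne_zero.mpr h1)
    · exact Or.inr (sub_ne_zero.mpr h1)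

/-- points of the box are different mod `R > N`. -/
lemma ne_mod (N R : ℕ) (x z : Pt) (hB : Box N {x, z}) (hxz : x ≠ z) (hR : N < R) :
    (x.1 : ZMod R) ≠ z.1 ∨ (x.2 : ZMod R) ≠ z.2 := by
  have hx := hB x (by simp)
  have hz := hB z (by simp)
  have key : ∀ u v : ℤ, 0 ≤ u → u ≤ N → 0 ≤ v → v ≤ N → (u : ZMod R) = v → u = v := by
    intro u v hu0 huN hv0 hvN h
    rw [ZMod.intCast_eq_intCast_iff] at h
    have h1 := Int.ModEq.eq h
    rw [Int.emod_eq_of_lt hu0 (by omega), Int.emod_eq_of_lt hv0 (by omega)] at h1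
    exact h1
  by_contra h
  push Not at h
  exact hxz (Prod.ext (key _ _ hx.1 hx.2.1 hz.1 hz.2.1 h.1)
    (key _ _ hx.2.2.1 hx.2.2.2 hz.2.2.1 hz.2.2.2 h.2))

lemma card_piF (R : ℕ) [NeZero R] (Q : Finset (ZMod R × ZMod R))
    (T : Finset ((Fin 8 → ZMod R) × (Fin 8 → ZMod R)))
    (hT : ∀ p ∈ T, ∀ i, (p.1 i, p.2 i) ∈ Q) : T.card ≤ Q.card ^ 8 := by
  have h1 : (Fintype.piFinset (fun _ : Fin 8 => Q)).card = Q.card ^ 8 := by
    rw [Fintype.card_piFinset]
    simp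
  rw [← h1]
  apply Finset.card_le_card_of_injOn (fun p i => (p.1 i, p.2 i))
  · intro p hp
    simp only [Finset.mem_coe, Fintype.mem_piFinset]
    exact hT p hp
  · intro p _ q _ h
    simp only [funext_iff, Prod.mk.injEq] at h
    exact Prod.ext (funext fun i => (h i).1) (funext fun i => (h i).2)

lemma card_diag (R L : ℕ) [NeZero R]
    (T : Finset ((Fin 8 → ZMod R) × (Fin 8 → ZMod R)))
    (hT : ∀ p ∈ T, p.1 = p.2 ∧ ∀ i, (p.1 i).val < L) : T.card ≤ L ^ 8 := by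
  have h1 : (Fintype.piFinset (fun _ : Fin 8 => Finset.range L)).card = L ^ 8 := by
    rw [Fintype.card_piFinset]
    simp
  rw [← h1]
  apply Finset.card_le_card_of_injOn (fun p i => (p.1 i).val)
  · intro p hp
    simp only [Finset.mem_coe, Fintype.mem_piFinset, Finset.mem_range]
    exact (hT p hp).2
  · intro p hp q hq h
    simp only [funext_iff] at h
    have h2 : p.1 = q.1 := funext fun i => ZMod.val_injective R (h i)
    have h3 := (hT p hp).1
    have h4 := (hT q hq).1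
    exact Prod.ext h2 (by rw [← h3, ← h4, h2])

theorem civ (hFIB : FIB) (hW2 : W2) (hCNT : CNT) (hTRI : TRI) : CIV := by
  intro N H R M L e H2 a b x y z hP hT hxz hB hH2
  obtain ⟨_, hTRI2, _⟩ := hTRI
  obtain ⟨hgN, hg0⟩ := gd_le N x z hB hxz
  have hdvd := (hTRI2 a b x y z hT).1
  have hR0 : 0 < R := hP.hR.pos
  have hM0 : 0 < M := hP.hM.pos
  have : NeZero R := ⟨hR0.ne'⟩
  have : NeZero M := ⟨hM0.ne'⟩
  have hmN : a + b ≤ N := (Nat.le_of_dvd hg0 hdvd).trans hgN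
  have hNL := hP.hNL
  have hH1 := hP.hH
  have hHH := hP.hHH
  have hLR : L ≤ R := le_trans (by nlinarith) hP.hLR
  have hLM : L < M := by
    have h1 := hP.hM1
    have h2 : 1 ≤ H2 := le_trans hH1 hHH
    have h3 : L ≤ H2 * L ^ 2 := by nlinarith [Nat.zero_le L, sq_nonneg (L - 1 : ℤ)]
    omega
  have heM : e ^ 2 ≤ M := by
    have h1 := hP.hM1
    have h2 := hP.he
    have h3 : 1 ≤ H2 := le_trans hH1 hHH
    nlinarith
  have hm0 : 0 < a + b := by omega
  have hmod := ne_mod N R x z hB hxz (by omega)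
  obtain ⟨w1, w2, _⟩ := hW2 M (e ^ 2) hP.hM heM
  -- the pairs
  let Q : Finset (ZMod R × ZMod R) := univ.filter (fun p => p.1.val < L ∧ p.2.val < L ∧
    ((a + b : ℕ) : ℤ) ∣ (p.1.val : ℤ) - p.2.val)
  let T : Finset ((Fin 8 → ZMod R) × (Fin 8 → ZMod R)) :=
    univ.filter (fun p => ∀ i, (p.1 i, p.2 i) ∈ Q)
  let A : (Fin 8 → ZMod R) × (Fin 8 → ZMod R) → Finset (O1 R) := fun p =>
    univ.filter (fun ω => (∀ i, lin (ω i) x = p.1 i) ∧ (∀ i, lin (ω i) z = p.2 i))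
  let C : (Fin 8 → ZMod R) × (Fin 8 → ZMod R) → Finset (O2 M) := fun p =>
    univ.filter (fun c => (Fq c (fun i => (p.1 i).val)).val < e ^ 2 ∧
      (Fq c (fun i => (p.2 i).val)).val < e ^ 2)
  have hA : ∀ p, (A p).card ≤ R ^ 8 := by
    intro p
    exact (card_le_natCard (A p) (fun ω h => (mem_filter.mp h).2)).trans
      (hFIB R hP.hR x z hmod p.1 p.2)
  have hC1 : ∀ p, (C p).card ≤ M ^ 8 * e ^ 2 := by
    intro p
    exact (card_le_natCard (C p) (fun c h => (mem_filter.mp h).2.1)).trans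
      (w1 (fun i => (p.1 i).val))
  have hC2 : ∀ p ∈ T, p.1 ≠ p.2 → (C p).card ≤ M ^ 7 * (e ^ 2) ^ 2 := by
    intro p hp hne
    refine (card_le_natCard (C p) (fun c h => (mem_filter.mp h).2)).trans
      (w2 (fun i => (p.1 i).val) (fun i => (p.2 i).val) ?_)
    · by_contra h
      push Not at h
      apply hne
      funext i
      have h2 := h i
      rw [mem_filter] at hp
      have h3 := hp.2 i
      rw [mem_filter] at h3
      have h5 : (p.1 i).val < L := h3.2.1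
      have h6 : (p.2 i).val < L := h3.2.2.1
      have h4 := congrArg ZMod.val h2
      rw [ZMod.val_natCast_of_lt (by omega), ZMod.val_natCast_of_lt (by omega)] at h4
      exact ZMod.val_injective R h4
  -- the cover
  have hcover : ∀ ω : O1 R × O2 M, (Sel L (e ^ 2) ω x ∧ Sel L (e ^ 2) ω y ∧
      Sel L (e ^ 2) ω z ∧ Kz a b (UU ω.1 x) (UU ω.1 y) (UU ω.1 z)) →
      ω ∈ T.biUnion (fun p => A p ×ˢ C p) := by
    intro ω hω
    obtain ⟨hx, hy, hz, hk⟩ := hω
    rw [mem_biUnion]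
    refine ⟨(fun i => lin (ω.1 i) x, fun i => lin (ω.1 i) z), ?_, ?_⟩
    · rw [mem_filter]
      refine ⟨mem_univ _, fun i => ?_⟩
      rw [mem_filter]
      refine ⟨mem_univ _, hx.1 i, hz.1 i, ?_⟩
      have h1 := hk i
      change ((a + b : ℕ) : ℤ) ∣ ((UU ω.1 x i : ℕ) : ℤ) - (UU ω.1 z i : ℕ)
      have h2 : (b : ℤ) * ((UU ω.1 x i : ℤ) - UU ω.1 z i) =
          ((a + b : ℕ) : ℤ) * ((UU ω.1 y i : ℤ) - UU ω.1 z i) := by
        have h3 : (b : ℤ) * UU ω.1 x i + a * UU ω.1 z i = (a + b) * UU ω.1 y i := by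
          exact_mod_cast h1
        push_cast
        linear_combination h3
      have hcop : IsCoprime ((a + b : ℕ) : ℤ) (b : ℤ) := by
        rw [Nat.isCoprime_iff_coprime]
        have := hT.2.2.1
        simpa using this
      exact hcop.dvd_of_dvd_mul_left ⟨_, h2⟩
    · rw [mem_product, mem_filter, mem_filter]
      exact ⟨⟨mem_univ _, fun _ => rfl, fun _ => rfl⟩, mem_univ _, hx.2, hz.2⟩
  have hcard : Nat.card {ω : O1 R × O2 M // Sel L (e ^ 2) ω x ∧ Sel L (e ^ 2) ω y ∧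
      Sel L (e ^ 2) ω z ∧ Kz a b (UU ω.1 x) (UU ω.1 y) (UU ω.1 z)} ≤
      T.card * (R ^ 8 * (M ^ 7 * (e ^ 2) ^ 2)) +
        (T.filter (fun p => p.1 = p.2)).card * (R ^ 8 * (M ^ 8 * e ^ 2)) := by
    refine (natCard_le_card _ hcover).trans ?_
    refine Finset.card_biUnion_le.trans ?_
    calc ∑ p ∈ T, (A p ×ˢ C p).card
        ≤ ∑ p ∈ T, ((R ^ 8 * (M ^ 7 * (e ^ 2) ^ 2)) +
          if p.1 = p.2 then (R ^ 8 * (M ^ 8 * e ^ 2)) else 0) := by
          apply Finset.sum_le_sum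
          intro p hp
          rw [card_product]
          by_cases hpp : p.1 = p.2
          · rw [if_pos hpp]
            exact (Nat.mul_le_mul (hA p) (hC1 p)).trans (Nat.le_add_left _ _)
          · rw [if_neg hpp, add_zero]
            exact Nat.mul_le_mul (hA p) (hC2 p hp hpp)
      _ = _ := by
          rw [Finset.sum_add_distrib, ← Finset.sum_filter, Finset.sum_const, Finset.sum_const]
          simp
  have hTc : T.card ≤ Q.card ^ 8 := card_piF R Q T (fun p hp => (mem_filter.mp hp).2)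
  have hQc : Q.card ≤ L * (L / (a + b) + 1) := by
    exact (card_le_natCard Q (fun c h => (mem_filter.mp h).2)).trans
      (hCNT R L (a + b) 1 hR0 hm0 le_rfl).2
  have hDc : (T.filter (fun p => p.1 = p.2)).card ≤ L ^ 8 := by
    apply card_diag R L
    intro p hp
    rw [mem_filter, mem_filter] at hp
    exact ⟨hp.2, fun i => (mem_filter.mp (hp.1.2 i)).2.1⟩
  have hRr : (0 : ℝ) < R := by exact_mod_cast hR0
  have hMr : (0 : ℝ) < M := by exact_mod_cast hM0
  have hH2r : (0 : ℝ) < H2 := by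
    have : 0 < H2 := by omega
    exact_mod_cast this
  have hmr : (H2 : ℝ) < (a + b : ℕ) := by exact_mod_cast hH2
  have hQr : (Q.card : ℝ) ≤ 2 * (L : ℝ) ^ 2 / H2 := by
    have h1 : (Q.card : ℝ) ≤ (L : ℝ) * ((L / (a + b) : ℕ) + 1) := by exact_mod_cast hQc
    have h2 : ((L / (a + b) : ℕ) : ℝ) ≤ (L : ℝ) / (a + b : ℕ) := Nat.cast_div_le
    have h3 : (L : ℝ) / (a + b : ℕ) ≤ (L : ℝ) / H2 := by
      apply div_le_div_of_nonneg_left (by positivity) hH2r hmr.le
    have h4 : (1 : ℝ) ≤ (L : ℝ) / H2 := by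
      rw [one_le_div hH2r]
      have : H2 ≤ L := by omega
      exact_mod_cast this
    have h5 : (0 : ℝ) ≤ L := Nat.cast_nonneg _
    calc (Q.card : ℝ) ≤ (L : ℝ) * ((L / (a + b) : ℕ) + 1) := h1
      _ ≤ (L : ℝ) * ((L : ℝ) / H2 + (L : ℝ) / H2) := by
          apply mul_le_mul_of_nonneg_left _ h5
          linarith
      _ = _ := by ring
  have hTr : (T.card : ℝ) ≤ (2 * (L : ℝ) ^ 2 / H2) ^ 8 := by
    have h1 : (T.card : ℝ) ≤ (Q.card : ℝ) ^ 8 := by exact_mod_cast hTc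
    exact h1.trans (pow_le_pow_left₀ (Nat.cast_nonneg _) hQr 8)
  have hDr : ((T.filter (fun p => p.1 = p.2)).card : ℝ) ≤ (L : ℝ) ^ 8 := by exact_mod_cast hDc
  have hcr : (Nat.card {ω : O1 R × O2 M // Sel L (e ^ 2) ω x ∧ Sel L (e ^ 2) ω y ∧
      Sel L (e ^ 2) ω z ∧ Kz a b (UU ω.1 x) (UU ω.1 y) (UU ω.1 z)} : ℝ) ≤
      T.card * ((R : ℝ) ^ 8 * (M ^ 7 * (e ^ 2) ^ 2)) +
        (T.filter (fun p => p.1 = p.2)).card * ((R : ℝ) ^ 8 * (M ^ 8 * e ^ 2)) := by
    exact_mod_cast hcard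
  refine hcr.trans ?_
  have h1 : (T.card : ℝ) * ((R : ℝ) ^ 8 * (M ^ 7 * (e ^ 2) ^ 2)) ≤
      (2 * (L : ℝ) ^ 2 / H2) ^ 8 * ((R : ℝ) ^ 8 * (M ^ 7 * (e ^ 2) ^ 2)) :=
    mul_le_mul_of_nonneg_right hTr (by positivity)
  have h2 : ((T.filter (fun p => p.1 = p.2)).card : ℝ) * ((R : ℝ) ^ 8 * (M ^ 8 * e ^ 2)) ≤
      (L : ℝ) ^ 8 * ((R : ℝ) ^ 8 * (M ^ 8 * e ^ 2)) :=
    mul_le_mul_of_nonneg_right hDr (by positivity)
  refine (add_le_add h1 h2).trans (le_of_eq ?_)
  unfold bet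
  field_simp

end Pool.Agent.Helper66.GP
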